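import Mathlib
import Pool.Agent.H90.D6.Count

/-!
Proposition E: the members of the family which have a representation with both intervals of
bounded length are few.
-/

open Finset Filter

namespace D6

open Classical in
/-- numbers `n ≤ x` all of whose odd-exponent primes above `y` divide some element of `R` -/
noncomputable def ZZ (y x : ℕ) (R : Finset ℕ) : Finset ℕ :=
  (Icc 1 x).filter (fun n => ∀ q : ℕ, q.Prime → ¬ Even (n.factorization q) → y < q →
    ∃ r ∈ R, q ∣ r)

theorem card_ZZ {y x N : ℕ} (hy : 2 ≤ y) {R : Finset ℕ} (hR : ∀ r ∈ R, r ≠ 0 ∧ r ≤ x)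
    (hN : R.card ≤ N) :
    ((ZZ y x R).card : ℝ) ≤ ((Nat.sqrt x : ℝ) + 1) *
      (2 : ℝ) ^ ((Nat.primeCounting y : ℝ) + N * (Real.log x / Real.log y)) := by
  classical
  set T₁ : Finset ℕ := (range (y + 1)).filter Nat.Prime with hT₁
  set T₂ : Finset ℕ := R.biUnion (fun r => r.primeFactors.filter (fun q => y < q)) with hT₂
  have hlogy : 0 < Real.log y := Real.log_pos (by exact_mod_cast (by omega : 1 < y))
  have hsub : ZZ y x R ⊆ ((range (Nat.sqrt x + 1)) ×ˢ (T₁ ∪ T₂).powerset).image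
      (fun z => z.1 ^ 2 * ∏ q ∈ z.2, q) := by
    intro n hn
    simp only [ZZ, mem_filter, mem_Icc] at hn
    obtain ⟨⟨hn1, hn2⟩, hn3⟩ := hn
    obtain ⟨a, b, hab, hsq⟩ := Nat.sq_mul_squarefree n
    have ha0 : a ≠ 0 := hsq.ne_zero
    have hb0 : b ≠ 0 := by
      rintro rfl
      simp at hab
      omega
    simp only [mem_image, mem_product, mem_range, mem_powerset, Prod.exists]
    refine ⟨b, a.primeFactors, ⟨?_, ?_⟩, ?_⟩
    · rw [Nat.lt_succ_iff, Nat.le_sqrt']
      calc b ^ 2 ≤ b ^ 2 * a := Nat.le_mul_of_pos_right _ (Nat.pos_of_ne_zero ha0)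
        _ ≤ x := by omega
    · intro q hq
      rw [Nat.mem_primeFactors] at hq
      rw [mem_union]
      rcases Nat.lt_or_ge y q with hyq | hyq
      · right
        have hodd : ¬ Even (n.factorization q) := by
          rw [← hab, Nat.factorization_mul (by positivity) ha0, Nat.factorization_pow,
            Finsupp.add_apply, Finsupp.smul_apply, hsq.natFactorization_le_one q |>.antisymm
              ((hq.1.dvd_iff_one_le_factorization ha0).mp hq.2.1)]
          rw [Nat.not_even_iff_odd]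
          exact ⟨b.factorization q, by simp⟩
        obtain ⟨r, hr, hqr⟩ := hn3 q hq.1 hodd hyq
        simp only [hT₂, mem_biUnion, mem_filter]
        exact ⟨r, hr, Nat.mem_primeFactors.mpr ⟨hq.1, hqr, (hR r hr).1⟩, hyq⟩
      · left
        simp only [hT₁, mem_filter, mem_range]
        exact ⟨by omega, hq.1⟩
    · rw [Nat.prod_primeFactors_of_squarefree hsq]
      exact hab
  have hcard1 : T₁.card = Nat.primeCounting y := by
    rw [hT₁, Nat.primeCounting, Nat.primeCounting', Nat.count_eq_card_filter_range]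
  have hcard2 : (T₂.card : ℝ) ≤ N * (Real.log x / Real.log y) := by
    have h1 : ∀ r ∈ R, ((r.primeFactors.filter (fun q => y < q)).card : ℝ) ≤
        Real.log x / Real.log y := by
      intro r hr
      rw [le_div_iff₀ hlogy]
      have h2 := sum_log_primes_le (S := r.primeFactors.filter (fun q => y < q)) (hR r hr).1 (by
        intro q hq
        rw [mem_filter, Nat.mem_primeFactors] at hq
        exact ⟨hq.1.1, hq.1.2.1⟩)
      have h3 : ((r.primeFactors.filter (fun q => y < q)).card : ℝ) * Real.log y ≤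
          ∑ q ∈ r.primeFactors.filter (fun q => y < q), Real.log q := by
        rw [← nsmul_eq_mul]
        apply Finset.card_nsmul_le_sum
        intro q hq
        rw [mem_filter] at hq
        apply Real.log_le_log (by exact_mod_cast (by omega : 0 < y))
        exact_mod_cast hq.2.le
      have h4 : Real.log r ≤ Real.log x := by
        apply Real.log_le_log
        · exact_mod_cast Nat.pos_of_ne_zero (hR r hr).1
        · exact_mod_cast (hR r hr).2
      linarith
    have h5 : (T₂.card : ℝ) ≤ ∑ r ∈ R, ((r.primeFactors.filter (fun q => y < q)).card : ℝ) := by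
      exact_mod_cast Finset.card_biUnion_le
    refine h5.trans ((Finset.sum_le_sum h1).trans ?_)
    rw [Finset.sum_const, nsmul_eq_mul]
    rcases Nat.eq_zero_or_pos x with rfl | hx
    · simp
    · apply mul_le_mul_of_nonneg_right (by exact_mod_cast hN)
      have : 0 ≤ Real.log x := Real.log_nonneg (by exact_mod_cast hx)
      positivity
  calc ((ZZ y x R).card : ℝ) ≤ ((((range (Nat.sqrt x + 1)) ×ˢ (T₁ ∪ T₂).powerset).image
      (fun z => z.1 ^ 2 * ∏ q ∈ z.2, q)).card : ℝ) := by exact_mod_cast Finset.card_le_card hsub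
    _ ≤ (((range (Nat.sqrt x + 1)) ×ˢ (T₁ ∪ T₂).powerset).card : ℝ) := by
        exact_mod_cast Finset.card_image_le
    _ = ((Nat.sqrt x : ℝ) + 1) * (2 : ℝ) ^ ((T₁ ∪ T₂).card : ℝ) := by
        rw [card_product, card_range, card_powerset]
        push_cast
        rw [Real.rpow_natCast]
    _ ≤ _ := by
        apply mul_le_mul_of_nonneg_left _ (by positivity)
        apply Real.rpow_le_rpow_of_exponent_le (by norm_num)
        have h6 : ((T₁ ∪ T₂).card : ℝ) ≤ (T₁.card : ℝ) + T₂.card := by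
          exact_mod_cast Finset.card_union_le _ _
        rw [hcard1] at h6
        linarith

theorem card_ZZ_ev (C : ℝ) (hC : 0 < C) (N : ℕ) : ∀ᶠ x : ℕ in atTop, ∀ R : Finset ℕ,
    (∀ r ∈ R, r ≠ 0 ∧ r ≤ x) → R.card ≤ N →
    ((ZZ ⌊C * Real.log x⌋₊ x R).card : ℝ) ≤ (x : ℝ) ^ (0.7 : ℝ) := by
  have hlog : Tendsto (fun x : ℕ => Real.log (x : ℝ)) atTop atTop :=
    Real.tendsto_log_atTop.comp tendsto_natCast_atTop_atTop
  have hCl : Tendsto (fun x : ℕ => C * Real.log (x : ℝ)) atTop atTop :=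
    hlog.const_mul_atTop hC
  have h1 : ∀ᶠ x : ℕ in atTop, (Nat.primeCounting ⌊C * Real.log x⌋₊ : ℝ) ≤
      0.05 * Real.log x := by
    have h2 := hCl.eventually (Chebyshev.eventually_primeCounting_le (ε := 1) (by norm_num))
    have h3 := (Real.tendsto_log_atTop.comp hCl).eventually_ge_atTop
      ((Real.log 4 + 1) * C / 0.05 + 1)
    filter_upwards [h2, h3, ev_le_log 1] with x h2 h3 h4
    simp only [Function.comp] at h3
    refine h2.trans ?_
    have hl4 : 0 < Real.log 4 := Real.log_pos (by norm_num)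
    have h5 : 0 < Real.log (C * Real.log x) := by
      have : 0 ≤ (Real.log 4 + 1) * C / 0.05 := by positivity
      linarith
    rw [div_le_iff₀ h5]
    have h6 : (Real.log 4 + 1) * C ≤ 0.05 * Real.log (C * Real.log x) := by
      have h7 : (Real.log 4 + 1) * C / 0.05 ≤ Real.log (C * Real.log x) := by linarith
      rw [div_le_iff₀ (by norm_num)] at h7
      linarith
    have h8 : 0 ≤ Real.log (x : ℝ) := by linarith
    nlinarith [mul_le_mul_of_nonneg_right h6 h8]
  have h2 : ∀ᶠ x : ℕ in atTop, (N : ℝ) * (Real.log x / Real.log (⌊C * Real.log x⌋₊ : ℝ)) ≤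
      0.05 * Real.log x := by
    have h3 : Tendsto (fun x : ℕ => Real.log (⌊C * Real.log x⌋₊ : ℝ)) atTop atTop :=
      Real.tendsto_log_atTop.comp (tendsto_natCast_atTop_atTop.comp
        (tendsto_nat_floor_atTop.comp hCl))
    filter_upwards [h3.eventually_ge_atTop ((N : ℝ) / 0.05 + 1), ev_le_log 1] with x h3 h4
    have h5 : 0 < Real.log (⌊C * Real.log x⌋₊ : ℝ) := by
      have : 0 ≤ (N : ℝ) / 0.05 := by positivity
      linarith
    rw [mul_div_assoc', div_le_iff₀ h5]
    have h6 : (N : ℝ) ≤ 0.05 * Real.log (⌊C * Real.log x⌋₊ : ℝ) := by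
      have h7 : (N : ℝ) / 0.05 ≤ Real.log (⌊C * Real.log x⌋₊ : ℝ) := by linarith
      rw [div_le_iff₀ (by norm_num)] at h7
      linarith
    have h8 : 0 ≤ Real.log (x : ℝ) := by linarith
    nlinarith [mul_le_mul_of_nonneg_right h6 h8]
  filter_upwards [h1, h2, hCl.eventually_ge_atTop 3, eventually_ge_atTop 2,
    ev_le0 2 0.6 0.7 (by norm_num)] with x h1 h2 h3 hx2 h4 R hR hN
  have hy : 2 ≤ ⌊C * Real.log x⌋₊ := Nat.le_floor (by push_cast; linarith)
  refine (card_ZZ hy hR hN).trans ?_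
  have hx0 : (0 : ℝ) < x := by exact_mod_cast (by omega : 0 < x)
  have hx1 : (1 : ℝ) ≤ x := by exact_mod_cast (by omega : 1 ≤ x)
  have hlogx : 0 ≤ Real.log (x : ℝ) := Real.log_nonneg hx1
  have h5 : (2 : ℝ) ^ ((Nat.primeCounting ⌊C * Real.log x⌋₊ : ℝ) +
      N * (Real.log x / Real.log (⌊C * Real.log x⌋₊ : ℝ))) ≤ (x : ℝ) ^ (0.1 : ℝ) := by
    calc (2 : ℝ) ^ ((Nat.primeCounting ⌊C * Real.log x⌋₊ : ℝ) +
      N * (Real.log x / Real.log (⌊C * Real.log x⌋₊ : ℝ))) ≤ (2 : ℝ) ^ (0.1 * Real.log x) := by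
          apply Real.rpow_le_rpow_of_exponent_le (by norm_num)
          linarith
      _ = Real.exp (Real.log 2 * (0.1 * Real.log x)) := by
          rw [Real.rpow_def_of_pos (by norm_num)]
      _ ≤ Real.exp (Real.log x * 0.1) := by
          apply Real.exp_le_exp.mpr
          have : Real.log 2 ≤ 1 := by linarith [Real.log_two_lt_d9]
          nlinarith
      _ = _ := by rw [Real.rpow_def_of_pos hx0]
  have h6 : (Nat.sqrt x : ℝ) + 1 ≤ 2 * (x : ℝ) ^ (0.5 : ℝ) := by
    have h7 : (Nat.sqrt x : ℝ) ≤ (x : ℝ) ^ (0.5 : ℝ) := by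
      have := Real.nat_sqrt_le_real_sqrt (a := x)
      rw [Real.sqrt_eq_rpow] at this
      norm_num at this ⊢
      exact this
    have h8 : (1 : ℝ) ≤ (x : ℝ) ^ (0.5 : ℝ) := Real.one_le_rpow hx1 (by norm_num)
    linarith
  calc ((Nat.sqrt x : ℝ) + 1) * (2 : ℝ) ^ ((Nat.primeCounting ⌊C * Real.log x⌋₊ : ℝ) +
      N * (Real.log x / Real.log (⌊C * Real.log x⌋₊ : ℝ))) ≤
      (2 * (x : ℝ) ^ (0.5 : ℝ)) * (x : ℝ) ^ (0.1 : ℝ) :=
        mul_le_mul h6 h5 (by positivity) (by positivity)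
    _ = 2 * (x : ℝ) ^ (0.6 : ℝ) := by
        rw [mul_assoc, ← Real.rpow_add hx0]; norm_num
    _ ≤ _ := h4

/-- the moduli -/
noncomputable def Rs (L k j : ℕ) : Finset ℕ :=
  (insert k ((Finset.Icc (-(L : ℤ)) L).image (fun t => (k * t + j : ℤ).natAbs))).filter (· ≠ 0)

theorem card_Rs (L k j : ℕ) : (Rs L k j).card ≤ 2 * L + 2 := by
  refine (Finset.card_filter_le _ _).trans ?_
  refine (Finset.card_insert_le _ _).trans ?_
  have h1 := Finset.card_image_le (s := Finset.Icc (-(L : ℤ)) L)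
    (f := fun t : ℤ => ((k : ℤ) * t + j : ℤ).natAbs)
  have h2 : (Finset.Icc (-(L : ℤ)) L).card = 2 * L + 1 := by
    rw [Int.card_Icc]
    omega
  omega

theorem le_of_mem_Rs {L k j r : ℕ} (h : r ∈ Rs L k j) : r ≠ 0 ∧ r ≤ k * (L + 1) + j := by
  simp only [Rs, mem_filter, mem_insert, mem_image, mem_Icc] at h
  obtain ⟨h1, h2⟩ := h
  refine ⟨h2, ?_⟩
  rcases h1 with rfl | ⟨t, ht, rfl⟩
  · nlinarith
  · have h3 : ((k * t + j : ℤ).natAbs : ℤ) ≤ k * (L + 1) + j := by
      rw [Int.natCast_natAbs, abs_le]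
      have hk : (0 : ℤ) ≤ k := by positivity
      have hj : (0 : ℤ) ≤ j := by positivity
      constructor
      · nlinarith [mul_le_mul_of_nonneg_left ht.1 hk]
      · nlinarith [mul_le_mul_of_nonneg_left ht.2 hk]
    exact_mod_cast h3

theorem isSquare_of_sq_mul {a n : ℕ} (ha : a ≠ 0) (h : IsSquare (a ^ 2 * n)) : IsSquare n := by
  obtain ⟨r, hr⟩ := h
  have h1 : a ^ 2 ∣ r ^ 2 := ⟨n, by rw [pow_two r, ← hr]⟩
  rw [Nat.pow_dvd_pow_iff (by norm_num)] at h1
  obtain ⟨t, rfl⟩ := h1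
  refine ⟨t, ?_⟩
  have h2 : a ^ 2 * n = a ^ 2 * (t * t) := by rw [hr]; ring
  exact Nat.eq_of_mul_eq_mul_left (by positivity) h2

theorem card_le_of_subset_biUnion {ι α : Type*} [DecidableEq α] {B : Finset α} {S : Finset ι}
    {f : ι → Finset α} {c : ℝ} (h : B ⊆ S.biUnion f) (hf : ∀ i ∈ S, ((f i).card : ℝ) ≤ c) :
    (B.card : ℝ) ≤ S.card * c := by
  have h1 : B.card ≤ ∑ i ∈ S, (f i).card :=
    (Finset.card_le_card h).trans Finset.card_biUnion_le
  have h2 : (B.card : ℝ) ≤ ∑ i ∈ S, ((f i).card : ℝ) := by exact_mod_cast h1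
  refine h2.trans ((Finset.sum_le_sum hf).trans ?_)
  rw [Finset.sum_const, nsmul_eq_mul]

/-- the core of Proposition E -/
theorem core_E {A L₀ x y m b c d e k p j : ℕ} (hmx : m ≤ x) (hx : 4 ≤ x) (hxm : x < 2 * m)
    (hyA : A ≤ y) (hyL : L₀ ≤ y) (hey : e ≤ y) (hm : m = k * p) (hk : 2 ≤ k)
    (hg : ∀ j e : ℕ, 1 ≤ j → j < k → ¬ IsSquare (k * j * e.factorial))
    (hrep : Rep m b c d e) (hA : m - b < A) (hL : c - d < L₀)
    (hj1 : 1 ≤ j) (hj : j * p ∈ Ioc d c) (hjk : j < k) (hp2 : 2 ≤ p) :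
    ∃ n ∈ ZZ y x (Rs L₀ k j), m = n + 1 ∨ m = k * ((n - 1) / j) ∨ m = k * ((n + 1) / j) := by
  classical
  obtain ⟨r1, r2, r3, r4, r5⟩ := id hrep
  have hj' := hj
  simp only [mem_Ioc] at hj'
  have hjp : 2 ≤ j * p := by nlinarith
  rcases Nat.lt_or_ge (m - b) 2 with hK | hK
  · -- `m - b = 1`
    have hbm : m = b + 1 := by omega
    rcases Nat.lt_or_ge (c - d) 2 with hL2 | hL2
    · -- `c = j p`
      exfalso
      have hcd : c = d + 1 := by omega
      have hcj : c = j * p := by omega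
      apply hg j e hj1 hjk
      have e1 : m.factorial * b.factorial * c.factorial * d.factorial * e.factorial =
          (p * b.factorial * d.factorial) ^ 2 * (k * j * e.factorial) := by
        have f1 : m.factorial = k * p * b.factorial := by
          rw [hbm, Nat.factorial_succ, ← hbm, hm]
        have f2 : c.factorial = j * p * d.factorial := by
          rw [hcd, Nat.factorial_succ, ← hcd, hcj]
        rw [f1, f2]
        ring
      rw [e1] at r5
      exact isSquare_of_sq_mul (by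
        have := Nat.factorial_ne_zero b
        have := Nat.factorial_ne_zero d
        positivity) r5
    · -- a neighbour of `j p`
      have key : ∀ n : ℕ, n ∈ Ioc d c → (n = j * p + 1 ∨ n + 1 = j * p) → n ∈ ZZ y x (Rs L₀ k j) := by
        intro n hn hnj
        have hn' := hn
        simp only [mem_Ioc] at hn'
        simp only [ZZ, mem_filter, mem_Icc]
        refine ⟨⟨by omega, by omega⟩, ?_⟩
        intro q hq hodd hyq
        have hqn : q ∣ n := by
          by_contra h
          exact hodd (by rw [Nat.factorization_eq_zero_of_not_dvd h]; exact Even.zero)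
        have hq2 : q ∣ m := by
          rcases hrep.match2 (q := q) (n := n) (by omega) hn hodd with ⟨n', hn', h⟩ | h
          · simp only [mem_Ioc] at hn'
            have : n' = m := by omega
            rwa [this] at h
          · exact absurd (by rw [factorization_factorial_eq_zero (by omega)]; exact Even.zero) h
        refine ⟨k, ?_, ?_⟩
        · simp only [Rs, mem_filter, mem_insert, true_or, true_and]
          omega
        · rw [hm] at hq2
          have h1 : (q : ℤ) ∣ (k : ℤ) * n := by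
            exact_mod_cast Dvd.dvd.mul_left hqn k
          have h2 : (q : ℤ) ∣ (j : ℤ) * (k * p) := by
            exact_mod_cast Dvd.dvd.mul_left hq2 j
          have h3 : (q : ℤ) ∣ (k : ℤ) := by
            rcases hnj with h | h
            · have := dvd_sub h1 h2
              rw [h] at this
              push_cast at this
              have e2 : (k : ℤ) * (j * p + 1) - j * (k * p) = k := by ring
              rwa [e2] at this
            · have := dvd_sub h2 h1
              have e3 : (n : ℤ) = j * p - 1 := by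
                have : (n : ℤ) + 1 = j * p := by exact_mod_cast h
                linarith
              rw [e3] at this
              have e2 : (j : ℤ) * (k * p) - k * (j * p - 1) = k := by ring
              rwa [e2] at this
          exact_mod_cast h3
      rcases Nat.lt_or_ge (j * p) c with h | h
      · refine ⟨j * p + 1, key _ (by simp only [mem_Ioc]; omega) (Or.inl rfl), Or.inr (Or.inl ?_)⟩
        rw [Nat.add_sub_cancel, Nat.mul_div_cancel_left _ (by omega), hm]
      · refine ⟨j * p - 1, key _ (by simp only [mem_Ioc]; omega) (Or.inr (by omega)),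
          Or.inr (Or.inr ?_)⟩
        rw [Nat.sub_add_cancel (by omega), Nat.mul_div_cancel_left _ (by omega), hm]
  · -- `n = m - 1`
    refine ⟨m - 1, ?_, Or.inl (by omega)⟩
    simp only [ZZ, mem_filter, mem_Icc]
    refine ⟨⟨by omega, by omega⟩, ?_⟩
    intro q hq hodd hyq
    have hqn : q ∣ m - 1 := by
      by_contra h
      exact hodd (by rw [Nat.factorization_eq_zero_of_not_dvd h]; exact Even.zero)
    obtain ⟨n', hn', hqn'⟩ := hrep.match1 (q := q) (n := m - 1) (by omega)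
      (by simp only [mem_Ioc]; omega) hodd (by omega)
    simp only [mem_Ioc] at hn'
    have hne : (k : ℤ) * ((n' : ℤ) - j * p) + j ≠ 0 := by
      intro h
      have h1 : (k : ℤ) ∣ j := ⟨-((n' : ℤ) - j * p), by linarith⟩
      have h2 : k ∣ j := by exact_mod_cast h1
      have := Nat.le_of_dvd (by omega) h2
      omega
    refine ⟨((k : ℤ) * ((n' : ℤ) - j * p) + j).natAbs, ?_, ?_⟩
    · simp only [Rs, mem_filter, mem_insert, mem_image, mem_Icc]
      refine ⟨Or.inr ⟨(n' : ℤ) - j * p, ⟨?_, ?_⟩, rfl⟩, by simpa using hne⟩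
      · have h1 : (j : ℤ) * p ≤ c := by exact_mod_cast hj'.2
        have h2 : (d : ℤ) < n' := by exact_mod_cast hn'.1
        have h3 : (c : ℤ) - d < L₀ := by omega
        linarith
      · have h1 : (d : ℤ) < j * p := by exact_mod_cast hj'.1
        have h2 : (n' : ℤ) ≤ c := by exact_mod_cast hn'.2
        have h3 : (c : ℤ) - d < L₀ := by omega
        linarith
    · rw [← Int.natCast_dvd]
      have h1 : (q : ℤ) ∣ (k : ℤ) * n' := by
        exact_mod_cast Dvd.dvd.mul_left hqn' k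
      have h2 : (q : ℤ) ∣ (j : ℤ) * ((m - 1 : ℕ) : ℤ) := by
        exact_mod_cast Dvd.dvd.mul_left hqn j
      have h3 := dvd_sub h1 h2
      have h4 : ((m - 1 : ℕ) : ℤ) = k * p - 1 := by
        have : 1 ≤ m := by omega
        rw [Nat.cast_sub this, hm]
        push_cast
        ring
      rw [h4] at h3
      have h5 : (k : ℤ) * n' - j * (k * p - 1) = (k : ℤ) * ((n' : ℤ) - j * p) + j := by ring
      rwa [h5] at h3

theorem propE (A L₀ : ℕ) : ∀ᶠ x : ℕ in atTop, ∀ B : Finset ℕ,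
    (∀ m ∈ B, InM A x m ∧ ∃ b c d e, Rep m b c d e ∧ m - b < A ∧ c - d < L₀) →
    (B.card : ℝ) ≤ (x : ℝ) ^ (0.995 : ℝ) := by
  classical
  obtain ⟨C₁, hC₁, hE⟩ := ebound
  set C : ℝ := C₁ * (A + L₀) + 1 with hC
  have hCpos : 0 < C := by positivity
  filter_upwards [matched, hE, card_ZZ_ev C hCpos (2 * L₀ + 2), eventually_ge_atTop 4,
    ev_le_log (A + L₀ + 1), ev_le0 (L₀ + 2) 0.01 1 (by norm_num), ev_le0 3 0.72 0.995 (by norm_num)]
    with x hM hE hZ hx4 hlx hxL hx5 B hB
  set y := ⌊C * Real.log x⌋₊ with hy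
  set K := ⌊(x : ℝ) ^ (0.01 : ℝ)⌋₊ with hK
  have hx0 : (0 : ℝ) < x := by exact_mod_cast (by omega : 0 < x)
  have hA0 : (0 : ℝ) ≤ A := by positivity
  have hL0 : (0 : ℝ) ≤ L₀ := by positivity
  have hlogx : 0 < Real.log (x : ℝ) := by linarith
  have hC1 : 1 ≤ C := by
    have : 0 ≤ C₁ * ((A : ℝ) + L₀) := by positivity
    linarith
  have hyx : Real.log x ≤ C * Real.log x := by nlinarith
  have hyA : A ≤ y := Nat.le_floor (by linarith)
  have hyL : L₀ ≤ y := Nat.le_floor (by linarith)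
  have hsub : B ⊆ ((Icc 1 K) ×ˢ (Icc 1 K)).biUnion (fun z =>
      (ZZ y x (Rs L₀ z.1 z.2)).image (fun n => n + 1) ∪
      ((ZZ y x (Rs L₀ z.1 z.2)).image (fun n => z.1 * ((n - 1) / z.2)) ∪
      (ZZ y x (Rs L₀ z.1 z.2)).image (fun n => z.1 * ((n + 1) / z.2)))) := by
    intro m hm
    obtain ⟨⟨h1, h2, k, p, h3, hp, hg, hk2, hk100⟩, b, c, d, e, hrep, hKA, hLL⟩ := hB m hm
    obtain ⟨r1, r2, r3, r4, -⟩ := id hrep
    obtain ⟨j, hj1, hj2, -, -, -, -⟩ := hM m b c d e k p h1 h2 hrep hp hk100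
      (by rw [← h3]; simp only [mem_Ioc]; omega) (by omega)
    have hj2' := hj2
    simp only [mem_Ioc] at hj2'
    have hjk : j < k := by
      have : j * p < k * p := by omega
      exact lt_of_mul_lt_mul_right this (Nat.zero_le _)
    have hkK : k ≤ K := Nat.le_floor (k_le_rpow hk100)
    have he : e ≤ y := by
      apply Nat.le_floor
      refine (hE m b c d e h2 hrep).trans ?_
      apply mul_le_mul_of_nonneg_right _ hlogx.le
      have h4 : ((m - b : ℕ) : ℝ) ≤ A := by exact_mod_cast hKA.le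
      have h5 : ((c - d : ℕ) : ℝ) ≤ L₀ := by exact_mod_cast hLL.le
      have : C₁ * (((m - b : ℕ) : ℝ) + ((c - d : ℕ) : ℝ)) ≤ C₁ * (A + L₀) :=
        mul_le_mul_of_nonneg_left (by linarith) hC₁.le
      linarith
    obtain ⟨n, hn, hcase⟩ := core_E h2 hx4 h1 hyA hyL he h3 hk2 hg.2.2 hrep hKA hLL hj1 hj2 hjk
      hp.two_le
    simp only [mem_biUnion, mem_product, mem_Icc, mem_union, mem_image, Prod.exists]
    refine ⟨k, j, ⟨⟨by omega, hkK⟩, ⟨hj1, by omega⟩⟩, ?_⟩
    rcases hcase with h | h | h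
    · exact Or.inl ⟨n, hn, h.symm⟩
    · exact Or.inr (Or.inl ⟨n, hn, h.symm⟩)
    · exact Or.inr (Or.inr ⟨n, hn, h.symm⟩)
  have hKx : (K : ℝ) ≤ (x : ℝ) ^ (0.01 : ℝ) := Nat.floor_le (by positivity)
  have hbound : ∀ z ∈ (Icc 1 K) ×ˢ (Icc 1 K),
      ((((ZZ y x (Rs L₀ z.1 z.2)).image (fun n => n + 1) ∪
      ((ZZ y x (Rs L₀ z.1 z.2)).image (fun n => z.1 * ((n - 1) / z.2)) ∪
      (ZZ y x (Rs L₀ z.1 z.2)).image (fun n => z.1 * ((n + 1) / z.2)))).card : ℕ) : ℝ) ≤
      3 * (x : ℝ) ^ (0.7 : ℝ) := by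
    intro z hz
    simp only [mem_product, mem_Icc] at hz
    have h1 := hZ (Rs L₀ z.1 z.2) (by
      intro r hr
      obtain ⟨h1, h2⟩ := le_of_mem_Rs hr
      refine ⟨h1, h2.trans ?_⟩
      have h3 : ((z.1 * (L₀ + 1) + z.2 : ℕ) : ℝ) ≤ x := by
        push_cast
        have h4 : (z.1 : ℝ) ≤ (x : ℝ) ^ (0.01 : ℝ) := le_trans (by exact_mod_cast hz.1.2) hKx
        have h5 : (z.2 : ℝ) ≤ (x : ℝ) ^ (0.01 : ℝ) := le_trans (by exact_mod_cast hz.2.2) hKx
        rw [Real.rpow_one] at hxL
        nlinarith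
      exact_mod_cast h3) (card_Rs _ _ _)
    have h2 : ((ZZ y x (Rs L₀ z.1 z.2)).image (fun n => n + 1) ∪
      ((ZZ y x (Rs L₀ z.1 z.2)).image (fun n => z.1 * ((n - 1) / z.2)) ∪
      (ZZ y x (Rs L₀ z.1 z.2)).image (fun n => z.1 * ((n + 1) / z.2)))).card ≤
        (ZZ y x (Rs L₀ z.1 z.2)).card + ((ZZ y x (Rs L₀ z.1 z.2)).card +
          (ZZ y x (Rs L₀ z.1 z.2)).card) :=
      (Finset.card_union_le _ _).trans (add_le_add Finset.card_image_le
        ((Finset.card_union_le _ _).trans (add_le_add Finset.card_image_le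
          Finset.card_image_le)))
    have h3 : ((((ZZ y x (Rs L₀ z.1 z.2)).image (fun n => n + 1) ∪
      ((ZZ y x (Rs L₀ z.1 z.2)).image (fun n => z.1 * ((n - 1) / z.2)) ∪
      (ZZ y x (Rs L₀ z.1 z.2)).image (fun n => z.1 * ((n + 1) / z.2)))).card : ℕ) : ℝ) ≤
        (ZZ y x (Rs L₀ z.1 z.2)).card + ((ZZ y x (Rs L₀ z.1 z.2)).card +
          (ZZ y x (Rs L₀ z.1 z.2)).card) := by exact_mod_cast h2
    linarith
  calc (B.card : ℝ) ≤ _ := card_le_of_subset_biUnion hsub hbound
    _ = (K : ℝ) * K * (3 * (x : ℝ) ^ (0.7 : ℝ)) := by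
        rw [card_product]
        simp
    _ ≤ (x : ℝ) ^ (0.01 : ℝ) * (x : ℝ) ^ (0.01 : ℝ) * (3 * (x : ℝ) ^ (0.7 : ℝ)) := by
        gcongr
    _ = 3 * (x : ℝ) ^ (0.72 : ℝ) := by
        rw [← Real.rpow_add hx0, mul_left_comm, ← Real.rpow_add hx0]; norm_num
    _ ≤ _ := hx5

end D6
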